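import Mathlib

/-!
Average-rarity of closure systems with at most one rooted set per root.

Outline of the proof. Comparing `F` with `F ∪ {u}` and `F` without `u`, the claim is equivalent to
`#{(F, u) : F closed, u ∈ F, F without u not closed}
   ≤ #{(G, w) : G closed, w ∉ G, G ∪ {w} not closed}`.
Group the pairs on the right by `F = cl (G ∪ {w})`. It is then enough to prove, for every closed
`F`, the local inequality `|R(F)| ≤ |P(F)|`, where `R(F)` is the set of `u ∈ F` with `F` without
`u` not closed and `P(F)` is the set of pairs `(G, w)` as above with closure `F`.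
Take a generating set `B` of `F` of least size; for `b ∈ B` put `F_b = cl (B without b)`.
A greedy walk from `(F_b, b)` (lemma `walk`) produces `|F \ F_b|` pairs `(G, w)` with
`F_b ⊆ G`, `b ∉ G`, `cl (G ∪ {w}) = F`, at most one of which has `G ∪ {w}` closed. The pairs
belonging to different `b` are different, and every element of `F` is missed by some `F_b`.
-/

set_option autoImplicit false

open Finset

namespace Pool.Agent.Results.MP_acd7a5_co.AverageRare

variable {V : Type*} [Fintype V] [DecidableEq V]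

/-- The family `C(𝒜)` of subsets of `V` generated by a family `𝒜` of rooted sets `(A, r)`:
a set `F` belongs to it iff for every `(A, r) ∈ 𝒜`, `A ⊆ F` implies `r ∈ F`. -/
def generated (𝒜 : Finset (Finset V × V)) : Finset (Finset V) :=
  univ.filter (fun F => ∀ p ∈ 𝒜, p.1 ⊆ F → p.2 ∈ F)

/-- The closure of `X` in a family `𝒞`. -/
def cl (𝒞 : Finset (Finset V)) (X : Finset V) : Finset V :=
  univ.filter (fun v => ∀ G ∈ 𝒞, X ⊆ G → v ∈ G)

lemma mem_generated {𝒜 : Finset (Finset V × V)} {F : Finset V} :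
    F ∈ generated 𝒜 ↔ ∀ p ∈ 𝒜, p.1 ⊆ F → p.2 ∈ F := by
  simp [generated]

lemma mem_cl {𝒞 : Finset (Finset V)} {X : Finset V} {v : V} :
    v ∈ cl 𝒞 X ↔ ∀ G ∈ 𝒞, X ⊆ G → v ∈ G := by
  simp [cl]

lemma subset_cl (𝒞 : Finset (Finset V)) (X : Finset V) : X ⊆ cl 𝒞 X := by
  intro x hx
  rw [mem_cl]
  intro G _ hXG
  exact hXG hx

lemma cl_subset {𝒞 : Finset (Finset V)} {X G : Finset V} (hG : G ∈ 𝒞) (hXG : X ⊆ G) :
    cl 𝒞 X ⊆ G := by
  intro x hx
  rw [mem_cl] at hx
  exact hx G hG hXG

lemma cl_mono {𝒞 : Finset (Finset V)} {X Y : Finset V} (h : X ⊆ Y) : cl 𝒞 X ⊆ cl 𝒞 Y := by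
  intro x hx
  rw [mem_cl] at hx ⊢
  intro G hG hYG
  exact hx G hG (h.trans hYG)

lemma cl_mem (𝒜 : Finset (Finset V × V)) (X : Finset V) :
    cl (generated 𝒜) X ∈ generated 𝒜 := by
  rw [mem_generated]
  intro p hp hsub
  rw [mem_cl]
  intro G hG hXG
  exact (mem_generated.1 hG) p hp (hsub.trans (cl_subset hG hXG))

lemma cl_self {𝒜 : Finset (Finset V × V)} {F : Finset V} (hF : F ∈ generated 𝒜) :
    cl (generated 𝒜) F = F :=
  Subset.antisymm (cl_subset hF (Subset.refl _)) (subset_cl _ _)

/-- A rank function recording the order in which elements are generated from `B`. -/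
lemma exists_rank (𝒜 : Finset (Finset V × V)) (B : Finset V) :
    ∃ rk : V → ℕ, ∀ v ∈ cl (generated 𝒜) B, v ∉ B →
      ∃ p ∈ 𝒜, p.2 = v ∧ p.1 ⊆ cl (generated 𝒜) B ∧ ∀ x ∈ p.1, rk x < rk v := by
  classical
  set F := cl (generated 𝒜) B with hF
  let good : Finset V → Prop := fun S => B ⊆ S ∧ S ⊆ F ∧ ∃ rk : V → ℕ, ∀ v ∈ S, v ∉ B →
      ∃ p ∈ 𝒜, p.2 = v ∧ p.1 ⊆ S ∧ ∀ x ∈ p.1, rk x < rk v
  have hgoodB : good B := by
    refine ⟨Subset.refl _, subset_cl _ _, fun _ => 0, ?_⟩
    intro v hv hv'
    exact absurd hv hv'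
  obtain ⟨S, hS, hmax⟩ := exists_max_image (univ.filter good) card ⟨B, by simp [hgoodB]⟩
  simp only [mem_filter, mem_univ, true_and] at hS hmax
  obtain ⟨hBS, hSF, rk, hrk⟩ := hS
  by_cases hSc : S ∈ generated 𝒜
  · have hFS : F ⊆ S := cl_subset hSc hBS
    have : S = F := Subset.antisymm hSF hFS
    subst this
    exact ⟨rk, hrk⟩
  · exfalso
    rw [mem_generated] at hSc
    push Not at hSc
    obtain ⟨p, hp, hpS, hpn⟩ := hSc
    have hpF : p.2 ∈ F := (mem_generated.1 (cl_mem 𝒜 B)) p hp (hpS.trans hSF)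
    have hpB : p.2 ∉ B := fun h => hpn (hBS h)
    have hgood : good (insert p.2 S) := by
      refine ⟨hBS.trans (subset_insert _ _), ?_, fun x => if x = p.2 then S.sup rk + 1 else rk x, ?_⟩
      · intro x hx
        rcases mem_insert.1 hx with rfl | hx
        · exact hpF
        · exact hSF hx
      · intro v hv hvB
        rcases mem_insert.1 hv with rfl | hv
        · refine ⟨p, hp, rfl, hpS.trans (subset_insert _ _), ?_⟩
          intro x hx
          have hxS := hpS hx
          have hxne : x ≠ p.2 := fun h => hpn (h ▸ hxS)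
          simp only [hxne, if_false, if_true]
          exact Nat.lt_succ_of_le (le_sup (f := rk) hxS)
        · obtain ⟨q, hq, hqv, hqS, hqr⟩ := hrk v hv hvB
          refine ⟨q, hq, hqv, hqS.trans (subset_insert _ _), ?_⟩
          intro x hx
          have hxne : x ≠ p.2 := fun h => hpn (h ▸ hqS hx)
          have hvne : v ≠ p.2 := fun h => hpn (h ▸ hv)
          simp only [hxne, hvne, if_false]
          exact hqr x hx
    have := hmax _ hgood
    rw [card_insert_of_notMem hpn] at this
    omega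

/-- The greedy walk: a lower bound on the number of pairs `(G', w')` with
`cl (G' ∪ {w'}) = F`. -/
lemma walk (𝒜 : Finset (Finset V × V))
    (hone : ∀ p ∈ 𝒜, ∀ q ∈ 𝒜, p.2 = q.2 → p = q)
    (F F₀ : Finset V) (hF : F ∈ generated 𝒜) (rk : V → ℕ) (b : V)
    (hrk : ∀ v ∈ F, v ∉ F₀ → v ≠ b →
      ∃ p ∈ 𝒜, p.2 = v ∧ p.1 ⊆ F ∧ ∀ x ∈ p.1, rk x < rk v) :
    ∀ (n : ℕ) (G D : Finset V) (w : V), (F \ (G ∪ D)).card = n → G ∈ generated 𝒜 →
      F₀ ⊆ G → G ⊆ F → D ⊆ F → Disjoint D G → w ∈ D → b ∈ D →
      (∀ r ∈ D, r ≠ w → ∀ p ∈ 𝒜, p.2 = r → ∃ x ∈ p.1, x ∈ D) →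
      cl (generated 𝒜) (insert w G) = F →
      n + 1 ≤ ((univ : Finset (Finset V × V)).filter (fun q =>
        q.1 ∈ generated 𝒜 ∧ G ⊆ q.1 ∧ Disjoint D q.1 ∧ q.2 ∉ q.1 ∧
        (q.2 ∉ D ∨ q.2 = w) ∧ cl (generated 𝒜) (insert q.2 q.1) = F)).card := by
  intro n
  induction n with
  | zero =>
    intro G D w _ hG hF₀G hGF hDF hDG hwD hbD hD hcl
    have : ((G, w) : Finset V × V) ∈ ((univ : Finset (Finset V × V)).filter (fun q =>
        q.1 ∈ generated 𝒜 ∧ G ⊆ q.1 ∧ Disjoint D q.1 ∧ q.2 ∉ q.1 ∧
        (q.2 ∉ D ∨ q.2 = w) ∧ cl (generated 𝒜) (insert q.2 q.1) = F)) := by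
      exact mem_filter.2 ⟨mem_univ _, hG, Subset.refl _, hDG, disjoint_left.1 hDG hwD,
        Or.inr rfl, hcl⟩
    have := card_pos.2 ⟨_, this⟩
    omega
  | succ n ih =>
    intro G D w hn hG hF₀G hGF hDF hDG hwD hbD hD hcl
    have hne : (F \ (G ∪ D)).Nonempty := card_pos.1 (by omega)
    obtain ⟨y, hy, hymax⟩ := exists_max_image (F \ (G ∪ D)) rk hne
    simp only [mem_sdiff, mem_union, not_or] at hy hymax
    obtain ⟨hyF, hyG, hyD⟩ := hy
    have hwG : w ∉ G := disjoint_left.1 hDG hwD
    -- the old pair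
    set P := ((univ : Finset (Finset V × V)).filter (fun q =>
        q.1 ∈ generated 𝒜 ∧ G ⊆ q.1 ∧ Disjoint D q.1 ∧ q.2 ∉ q.1 ∧
        (q.2 ∉ D ∨ q.2 = w) ∧ cl (generated 𝒜) (insert q.2 q.1) = F)) with hP
    have hold : ((G, w) : Finset V × V) ∈ P := by
      exact mem_filter.2 ⟨mem_univ _, hG, Subset.refl _, hDG, hwG, Or.inr rfl, hcl⟩
    by_cases hc : insert y G ∈ generated 𝒜
    · -- add y to G
      have hcard : (F \ (insert y G ∪ D)).card = n := by
        have : F \ (insert y G ∪ D) = (F \ (G ∪ D)).erase y := by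
          ext x
          simp only [mem_sdiff, mem_union, mem_insert, mem_erase, not_or]
          tauto
        rw [this, card_erase_of_mem (by simp [hyF, hyG, hyD]), hn]
        rfl
      have hdisj : Disjoint D (insert y G) := by
        rw [disjoint_insert_right]
        exact ⟨hyD, hDG⟩
      have hclnew : cl (generated 𝒜) (insert w (insert y G)) = F := by
        apply Subset.antisymm
        · apply cl_subset hF
          intro x hx
          rcases mem_insert.1 hx with rfl | hx
          · exact hDF hwD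
          · rcases mem_insert.1 hx with rfl | hx
            · exact hyF
            · exact hGF hx
        · rw [← hcl]
          apply cl_mono
          exact insert_subset_insert _ (subset_insert _ _)
      have key := ih (insert y G) D w hcard hc (hF₀G.trans (subset_insert _ _))
        (insert_subset hyF hGF) hDF hdisj hwD hbD hD hclnew
      set P' := ((univ : Finset (Finset V × V)).filter (fun q =>
        q.1 ∈ generated 𝒜 ∧ insert y G ⊆ q.1 ∧ Disjoint D q.1 ∧ q.2 ∉ q.1 ∧
        (q.2 ∉ D ∨ q.2 = w) ∧ cl (generated 𝒜) (insert q.2 q.1) = F)) with hP'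
      have hsub : insert ((G, w) : Finset V × V) P' ⊆ P := by
        intro q hq
        rcases mem_insert.1 hq with rfl | hq
        · exact hold
        · simp only [hP', mem_filter, mem_univ, true_and] at hq
          simp only [hP, mem_filter, mem_univ, true_and]
          exact ⟨hq.1, (subset_insert _ _).trans hq.2.1, hq.2.2⟩
      have hnot : ((G, w) : Finset V × V) ∉ P' := by
        simp only [hP', mem_filter, mem_univ, true_and, not_and]
        intro _ h
        exact absurd (h (mem_insert_self _ _)) hyG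
      have := card_le_card hsub
      rw [card_insert_of_notMem hnot] at this
      omega
    · -- violation at w
      rw [mem_generated] at hc
      push Not at hc
      obtain ⟨p, hp, hpsub, hpn⟩ := hc
      have hpF : p.2 ∈ F := (mem_generated.1 hF) p hp (hpsub.trans (insert_subset hyF hGF))
      have hpG : ¬ p.1 ⊆ G := by
        intro h
        exact hpn (mem_insert_of_mem ((mem_generated.1 hG) p hp h))
      have hyp : y ∈ p.1 := by
        by_contra h
        apply hpG
        intro x hx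
        rcases mem_insert.1 (hpsub hx) with rfl | h'
        · exact absurd hx h
        · exact h'
      have hpw : p.2 = w := by
        by_contra hne'
        by_cases hpD : p.2 ∈ D
        · obtain ⟨x, hx, hxD⟩ := hD p.2 hpD hne' p hp rfl
          rcases mem_insert.1 (hpsub hx) with rfl | h'
          · exact hyD hxD
          · exact disjoint_left.1 hDG hxD h'
        · have hpnG : p.2 ∉ G := fun h => hpn (mem_insert_of_mem h)
          have hpnF₀ : p.2 ∉ F₀ := fun h => hpnG (hF₀G h)
          have hpnb : p.2 ≠ b := fun h => hpD (h ▸ hbD)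
          obtain ⟨q, hq, hqp, _, hqr⟩ := hrk p.2 hpF hpnF₀ hpnb
          have hqp' : q = p := hone q hq p hp hqp
          subst hqp'
          have h1 := hqr y hyp
          have h2 := hymax q.2 ⟨hpF, hpnG, hpD⟩
          omega
      -- all members of 𝒜 with root w equal p
      have hcard : (F \ (G ∪ insert y D)).card = n := by
        have : F \ (G ∪ insert y D) = (F \ (G ∪ D)).erase y := by
          ext x
          simp only [mem_sdiff, mem_union, mem_insert, mem_erase, not_or]
          tauto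
        rw [this, card_erase_of_mem (by simp [hyF, hyG, hyD]), hn]
        rfl
      have hdisj : Disjoint (insert y D) G := by
        rw [disjoint_insert_left]
        exact ⟨hyG, hDG⟩
      have hDnew : ∀ r ∈ insert y D, r ≠ y → ∀ q ∈ 𝒜, q.2 = r → ∃ x ∈ q.1, x ∈ insert y D := by
        intro r hr hry q hq hqr
        rcases mem_insert.1 hr with h | hr
        · exact absurd h hry
        · by_cases hrw : r = w
          · have : q = p := hone q hq p hp (by rw [hqr, hrw, hpw])
            subst this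
            exact ⟨y, hyp, mem_insert_self _ _⟩
          · obtain ⟨x, hx, hxD⟩ := hD r hr hrw q hq hqr
            exact ⟨x, hx, mem_insert_of_mem hxD⟩
      have hclnew : cl (generated 𝒜) (insert y G) = F := by
        apply Subset.antisymm
        · exact cl_subset hF (insert_subset hyF hGF)
        · rw [← hcl]
          apply cl_subset (cl_mem _ _)
          apply insert_subset
          · have := (mem_generated.1 (cl_mem 𝒜 (insert y G))) p hp (hpsub.trans (subset_cl _ _))
            rwa [hpw] at this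
          · exact (subset_insert _ _).trans (subset_cl _ _)
      have key := ih G (insert y D) y hcard hG hF₀G hGF (insert_subset hyF hDF) hdisj
        (mem_insert_self _ _) (mem_insert_of_mem hbD) hDnew hclnew
      set P' := ((univ : Finset (Finset V × V)).filter (fun q =>
        q.1 ∈ generated 𝒜 ∧ G ⊆ q.1 ∧ Disjoint (insert y D) q.1 ∧ q.2 ∉ q.1 ∧
        (q.2 ∉ insert y D ∨ q.2 = y) ∧ cl (generated 𝒜) (insert q.2 q.1) = F)) with hP'
      have hsub : insert ((G, w) : Finset V × V) P' ⊆ P := by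
        intro q hq
        rcases mem_insert.1 hq with rfl | hq
        · exact hold
        · simp only [hP', mem_filter, mem_univ, true_and] at hq
          simp only [hP, mem_filter, mem_univ, true_and]
          refine ⟨hq.1, hq.2.1, (disjoint_insert_left.1 hq.2.2.1).2, hq.2.2.2.1, ?_, hq.2.2.2.2.2⟩
          rcases hq.2.2.2.2.1 with h | h
          · exact Or.inl (fun h' => h (mem_insert_of_mem h'))
          · exact Or.inl (h ▸ hyD)
      have hnot : ((G, w) : Finset V × V) ∉ P' := by
        simp only [hP', mem_filter, mem_univ, true_and, not_and]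
        intro _ _ _ _ h
        exfalso
        rcases h with h | h
        · exact h (mem_insert_of_mem hwD)
        · exact hyD (h ▸ hwD)
      have := card_le_card hsub
      rw [card_insert_of_notMem hnot] at this
      omega

/-- The elements `u` of `F` such that `F` without `u` is not closed. -/
def locR (𝒞 : Finset (Finset V)) (F : Finset V) : Finset V :=
  F.filter (fun u => F.erase u ∉ 𝒞)

/-- The pairs `(G, w)` with `G` closed, `w ∉ G`, `G ∪ {w}` not closed, of closure `F`. -/
def locP (𝒞 : Finset (Finset V)) (F : Finset V) : Finset (Finset V × V) :=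
  univ.filter (fun q => q.1 ∈ 𝒞 ∧ q.2 ∉ q.1 ∧ insert q.2 q.1 ∉ 𝒞 ∧ cl 𝒞 (insert q.2 q.1) = F)

lemma per_b (𝒜 : Finset (Finset V × V))
    (hone : ∀ p ∈ 𝒜, ∀ q ∈ 𝒜, p.2 = q.2 → p = q)
    (F B : Finset V) (hF : F ∈ generated 𝒜) (rk : V → ℕ) (b : V) (hb : b ∈ B)
    (hBF : cl (generated 𝒜) B = F)
    (hbB : b ∉ cl (generated 𝒜) (B.erase b))
    (hrk : ∀ v ∈ F, v ∉ B →
      ∃ p ∈ 𝒜, p.2 = v ∧ p.1 ⊆ F ∧ ∀ x ∈ p.1, rk x < rk v) :
    (locR (generated 𝒜) F \ cl (generated 𝒜) (B.erase b)).card ≤
      ((locP (generated 𝒜) F).filter (fun q => B.erase b ⊆ q.1 ∧ b ∉ q.1)).card := by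
  classical
  set F₀ := cl (generated 𝒜) (B.erase b) with hF₀
  have hF₀mem : F₀ ∈ generated 𝒜 := cl_mem _ _
  have hBsub : B ⊆ F := hBF ▸ subset_cl _ _
  have hbF : b ∈ F := hBsub hb
  have hF₀F : F₀ ⊆ F := cl_subset hF ((erase_subset _ _).trans hBsub)
  have hBF₀ : B.erase b ⊆ F₀ := subset_cl _ _
  have hrk' : ∀ v ∈ F, v ∉ F₀ → v ≠ b →
      ∃ p ∈ 𝒜, p.2 = v ∧ p.1 ⊆ F ∧ ∀ x ∈ p.1, rk x < rk v := by
    intro v hv hvF₀ hvb
    apply hrk v hv
    intro hvB
    exact hvF₀ (hBF₀ (mem_erase.2 ⟨hvb, hvB⟩))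
  have hcl : cl (generated 𝒜) (insert b F₀) = F := by
    apply Subset.antisymm
    · exact cl_subset hF (insert_subset hbF hF₀F)
    · rw [← hBF]
      apply cl_mono
      intro x hx
      by_cases hxb : x = b
      · subst hxb; exact mem_insert_self _ _
      · exact mem_insert_of_mem (hBF₀ (mem_erase.2 ⟨hxb, hx⟩))
  have key := walk 𝒜 hone F F₀ hF rk b hrk' _ F₀ {b} b rfl hF₀mem (Subset.refl _) hF₀F
    (singleton_subset_iff.2 hbF) (disjoint_singleton_left.2 hbB) (mem_singleton_self _)
    (mem_singleton_self _)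
    (by intro r hr hrb; exact absurd (mem_singleton.1 hr) hrb) hcl
  set Q := ((univ : Finset (Finset V × V)).filter (fun q =>
        q.1 ∈ generated 𝒜 ∧ F₀ ⊆ q.1 ∧ Disjoint {b} q.1 ∧ q.2 ∉ q.1 ∧
        (q.2 ∉ ({b} : Finset V) ∨ q.2 = b) ∧ cl (generated 𝒜) (insert q.2 q.1) = F)) with hQ
  have hcard : (F \ (F₀ ∪ {b})).card + 1 = (F \ F₀).card := by
    have : F \ (F₀ ∪ {b}) = (F \ F₀).erase b := by
      ext x
      simp only [mem_sdiff, mem_union, mem_singleton, mem_erase, not_or]
      tauto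
    have hbm : b ∈ F \ F₀ := mem_sdiff.2 ⟨hbF, hbB⟩
    rw [this, card_erase_of_mem hbm]
    have := card_pos.2 ⟨b, hbm⟩
    omega
  -- facts about members of Q
  have hQfact : ∀ q ∈ Q, insert q.2 q.1 ∈ generated 𝒜 → q = (F.erase b, b) := by
    intro q hq hc
    simp only [hQ, mem_filter, mem_univ, true_and, disjoint_singleton_left] at hq
    obtain ⟨_, _, hbq, hq2, _, hclq⟩ := hq
    rw [cl_self hc] at hclq
    have h2 : q.2 = b := by
      rw [← hclq] at hbF
      rcases mem_insert.1 hbF with h | h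
      · exact h.symm
      · exact absurd h hbq
    have h1 : q.1 = F.erase b := by
      rw [← hclq, h2, erase_insert (h2 ▸ hq2)]
    exact Prod.ext h1 h2
  have hQP : ∀ q ∈ Q, insert q.2 q.1 ∉ generated 𝒜 →
      q ∈ (locP (generated 𝒜) F).filter (fun q => B.erase b ⊆ q.1 ∧ b ∉ q.1) := by
    intro q hq hc
    simp only [hQ, mem_filter, mem_univ, true_and, disjoint_singleton_left] at hq
    obtain ⟨h1, h2, hbq, hq2, _, hclq⟩ := hq
    simp only [locP, mem_filter, mem_univ, true_and]
    exact ⟨⟨h1, hq2, hc, hclq⟩, hBF₀.trans h2, hbq⟩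
  have hRsub : locR (generated 𝒜) F \ F₀ ⊆ F \ F₀ :=
    sdiff_subset_sdiff (filter_subset _ _) (Subset.refl _)
  by_cases hbc : F.erase b ∈ generated 𝒜
  · have h1 : locR (generated 𝒜) F \ F₀ ⊆ (F \ F₀).erase b := by
      intro x hx
      refine mem_erase.2 ⟨?_, hRsub hx⟩
      rintro rfl
      have := (mem_filter.1 (mem_sdiff.1 hx).1).2
      exact this hbc
    have h2 : Q.erase (F.erase b, b) ⊆
        (locP (generated 𝒜) F).filter (fun q => B.erase b ⊆ q.1 ∧ b ∉ q.1) := by
      intro q hq
      obtain ⟨hqne, hq⟩ := mem_erase.1 hq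
      exact hQP q hq (fun hc => hqne (hQfact q hq hc))
    have h3 := card_le_card h1
    have h4 := card_le_card h2
    have hbm : b ∈ F \ F₀ := mem_sdiff.2 ⟨hbF, hbB⟩
    rw [card_erase_of_mem hbm] at h3
    have h5 : Q.card - 1 ≤ (Q.erase (F.erase b, b)).card := pred_card_le_card_erase
    omega
  · have h2 : Q ⊆
        (locP (generated 𝒜) F).filter (fun q => B.erase b ⊆ q.1 ∧ b ∉ q.1) := by
      intro q hq
      apply hQP q hq
      intro hc
      have := hQfact q hq hc
      subst this
      simp only [hQ, mem_filter] at hq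
      exact hbc hq.2.1
    have h3 := card_le_card hRsub
    have h4 := card_le_card h2
    omega

lemma local_ineq (𝒜 : Finset (Finset V × V))
    (hone : ∀ p ∈ 𝒜, ∀ q ∈ 𝒜, p.2 = q.2 → p = q)
    (hempty : ∅ ∈ generated 𝒜)
    (F : Finset V) (hF : F ∈ generated 𝒜) :
    (locR (generated 𝒜) F).card ≤ (locP (generated 𝒜) F).card := by
  classical
  obtain ⟨B, hB, hmin⟩ := exists_min_image
    (univ.filter (fun X : Finset V => cl (generated 𝒜) X = F)) card
    ⟨F, by simp [cl_self hF]⟩
  simp only [mem_filter, mem_univ, true_and] at hB hmin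
  have hBsub : B ⊆ F := hB ▸ subset_cl _ _
  have hbB : ∀ b ∈ B, b ∉ cl (generated 𝒜) (B.erase b) := by
    intro b hb hmem
    have h1 : B ⊆ cl (generated 𝒜) (B.erase b) := by
      intro x hx
      by_cases hxb : x = b
      · exact hxb ▸ hmem
      · exact subset_cl _ _ (mem_erase.2 ⟨hxb, hx⟩)
    have h2 : cl (generated 𝒜) (B.erase b) = F := by
      apply Subset.antisymm
      · exact cl_subset hF ((erase_subset _ _).trans hBsub)
      · rw [← hB]
        exact cl_subset (cl_mem _ _) h1
    have h3 := hmin _ h2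
    have h4 := card_erase_lt_of_mem hb
    omega
  obtain ⟨rk, hrk⟩ := exists_rank 𝒜 B
  rw [hB] at hrk
  have hcover : locR (generated 𝒜) F ⊆
      B.biUnion (fun b => locR (generated 𝒜) F \ cl (generated 𝒜) (B.erase b)) := by
    intro v hv
    rw [mem_biUnion]
    by_contra hcon
    push Not at hcon
    have hvF : v ∈ F := (mem_filter.1 hv).1
    have hvU : ∀ b ∈ B, v ∈ cl (generated 𝒜) (B.erase b) := by
      intro b hb
      by_contra h
      exact hcon b hb (mem_sdiff.2 ⟨hv, h⟩)
    have hBne : B.Nonempty := by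
      rw [nonempty_iff_ne_empty]
      intro h
      rw [h, cl_self hempty] at hB
      rw [← hB] at hvF
      exact notMem_empty _ hvF
    obtain ⟨u, hu, humin⟩ := exists_min_image
      (F.filter (fun x => ∀ b ∈ B, x ∈ cl (generated 𝒜) (B.erase b))) rk
      ⟨v, mem_filter.2 ⟨hvF, hvU⟩⟩
    obtain ⟨huF, huU⟩ := mem_filter.1 hu
    have huB : u ∉ B := fun h => hbB u h (huU u h)
    obtain ⟨p, hp, hpu, hpF, hpr⟩ := hrk u huF huB
    have hpne : p.1.Nonempty := by
      rw [nonempty_iff_ne_empty]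
      intro h
      have := (mem_generated.1 hempty) p hp (by rw [h])
      exact notMem_empty _ this
    obtain ⟨x, hx⟩ := hpne
    have hxU : x ∈ F.filter (fun x => ∀ b ∈ B, x ∈ cl (generated 𝒜) (B.erase b)) := by
      refine mem_filter.2 ⟨hpF hx, ?_⟩
      intro b hb
      have huFb := huU b hb
      set Fb := cl (generated 𝒜) (B.erase b) with hFb
      have hFbm : Fb ∈ generated 𝒜 := cl_mem _ _
      by_contra hxn
      have hnot : ¬ p.1 ⊆ Fb := fun h => hxn (h hx)
      have hclosed : Fb.erase u ∈ generated 𝒜 := by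
        rw [mem_generated]
        intro q hq hqs
        have hq2 : q.2 ∈ Fb := (mem_generated.1 hFbm) q hq (hqs.trans (erase_subset _ _))
        refine mem_erase.2 ⟨?_, hq2⟩
        intro hqu
        have : q = p := hone q hq p hp (hqu.trans hpu.symm)
        subst this
        exact hnot (hqs.trans (erase_subset _ _))
      have hsub : B.erase b ⊆ Fb.erase u := by
        intro y hy
        refine mem_erase.2 ⟨?_, subset_cl _ _ hy⟩
        rintro rfl
        exact huB (mem_of_mem_erase hy)
      have := cl_subset hclosed hsub huFb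
      exact notMem_erase _ _ this
    have h1 := humin x hxU
    have h2 := hpr x hx
    omega
  have hdisj : ∀ b ∈ B, ∀ b' ∈ B, b ≠ b' →
      Disjoint ((locP (generated 𝒜) F).filter (fun q => B.erase b ⊆ q.1 ∧ b ∉ q.1))
        ((locP (generated 𝒜) F).filter (fun q => B.erase b' ⊆ q.1 ∧ b' ∉ q.1)) := by
    intro b hb b' _ hne
    rw [disjoint_left]
    intro q hq hq'
    have h1 := (mem_filter.1 hq).2
    have h2 := (mem_filter.1 hq').2
    exact h1.2 (h2.1 (mem_erase.2 ⟨hne, hb⟩))
  calc (locR (generated 𝒜) F).card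
      ≤ (B.biUnion (fun b => locR (generated 𝒜) F \ cl (generated 𝒜) (B.erase b))).card :=
        card_le_card hcover
    _ ≤ ∑ b ∈ B, (locR (generated 𝒜) F \ cl (generated 𝒜) (B.erase b)).card :=
        card_biUnion_le
    _ ≤ ∑ b ∈ B, ((locP (generated 𝒜) F).filter
          (fun q => B.erase b ⊆ q.1 ∧ b ∉ q.1)).card :=
        sum_le_sum (fun b hb => per_b 𝒜 hone F B hF rk b hb hB (hbB b hb) hrk)
    _ = (B.biUnion (fun b => (locP (generated 𝒜) F).filter
          (fun q => B.erase b ⊆ q.1 ∧ b ∉ q.1))).card :=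
        (card_biUnion hdisj).symm
    _ ≤ (locP (generated 𝒜) F).card := by
        apply card_le_card
        intro q hq
        obtain ⟨b, _, hq⟩ := mem_biUnion.1 hq
        exact (mem_filter.1 hq).1

lemma sum_eq_pairs (𝒞 : Finset (Finset V)) :
    ∑ F ∈ 𝒞, F.card = ((univ : Finset (Finset V × V)).filter
      (fun q => q.1 ∈ 𝒞 ∧ q.2 ∈ q.1)).card := by
  classical
  rw [card_eq_sum_card_fiberwise (f := Prod.fst) (t := 𝒞)
    (by intro q hq; simp only [coe_filter, mem_univ, true_and, Set.mem_ofPred_eq] at hq; exact hq.1)]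
  apply sum_congr rfl
  intro F hF
  apply card_bij (fun u _ => (F, u))
  · intro u hu
    simp [hF, hu]
  · intro a _ c _ h
    exact (Prod.ext_iff.1 h).2
  · intro q hq
    simp only [mem_filter, mem_univ, true_and] at hq
    exact ⟨q.2, hq.2 ▸ hq.1.2, by rw [← hq.2]⟩

lemma sum_compl_eq_pairs (𝒞 : Finset (Finset V)) :
    ∑ F ∈ 𝒞, (Fintype.card V - F.card) = ((univ : Finset (Finset V × V)).filter
      (fun q => q.1 ∈ 𝒞 ∧ q.2 ∉ q.1)).card := by
  classical
  rw [card_eq_sum_card_fiberwise (f := Prod.fst) (t := 𝒞)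
    (by intro q hq; simp only [coe_filter, mem_univ, true_and, Set.mem_ofPred_eq] at hq; exact hq.1)]
  apply sum_congr rfl
  intro F hF
  rw [← card_compl]
  apply card_bij (fun u _ => (F, u))
  · intro u hu
    exact mem_filter.2 ⟨mem_filter.2 ⟨mem_univ _, hF, mem_compl.1 hu⟩, rfl⟩
  · intro a _ c _ h
    exact (Prod.ext_iff.1 h).2
  · intro q hq
    simp only [mem_filter, mem_univ, true_and] at hq
    exact ⟨q.2, mem_compl.2 (hq.2 ▸ hq.1.2), by rw [← hq.2]⟩

/-- **Average-rarity.** Let `𝒞` be an intersection-closed family of subsets of a finite set `V`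
with `∅ ∈ 𝒞`, generated by a family `𝒜` of rooted sets in which each element of `V` is the root
of at most one member. Then `2 * ∑ F ∈ 𝒞, |F| ≤ |𝒞| * |V|`. -/
theorem result {V : Type*} [Fintype V] [DecidableEq V]
    (𝒞 : Finset (Finset V))
    (_hinter : ∀ F ∈ 𝒞, ∀ G ∈ 𝒞, F ∩ G ∈ 𝒞)
    (hempty : ∅ ∈ 𝒞)
    (𝒜 : Finset (Finset V × V))
    (_hrooted : ∀ p ∈ 𝒜, p.2 ∉ p.1)
    (hone : ∀ p ∈ 𝒜, ∀ q ∈ 𝒜, p.2 = q.2 → p = q)
    (hgen : 𝒞 = generated 𝒜) :
    2 * ∑ F ∈ 𝒞, F.card ≤ 𝒞.card * Fintype.card V := by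
  classical
  subst hgen
  set 𝒞 := generated 𝒜 with h𝒞
  have hX := sum_eq_pairs 𝒞
  have hY := sum_compl_eq_pairs 𝒞
  set X1 := (univ : Finset (Finset V × V)).filter
    (fun q => q.1 ∈ 𝒞 ∧ q.2 ∈ q.1 ∧ q.1.erase q.2 ∈ 𝒞) with hX1
  set X2 := (univ : Finset (Finset V × V)).filter
    (fun q => q.1 ∈ 𝒞 ∧ q.2 ∈ q.1 ∧ q.1.erase q.2 ∉ 𝒞) with hX2
  set Y1 := (univ : Finset (Finset V × V)).filter
    (fun q => q.1 ∈ 𝒞 ∧ q.2 ∉ q.1 ∧ insert q.2 q.1 ∈ 𝒞) with hY1
  set Y2 := (univ : Finset (Finset V × V)).filter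
    (fun q => q.1 ∈ 𝒞 ∧ q.2 ∉ q.1 ∧ insert q.2 q.1 ∉ 𝒞) with hY2
  have hXcard : ((univ : Finset (Finset V × V)).filter
      (fun q => q.1 ∈ 𝒞 ∧ q.2 ∈ q.1)).card = X1.card + X2.card := by
    rw [← card_union_of_disjoint]
    · congr 1
      ext q
      simp only [hX1, hX2, mem_filter, mem_univ, true_and, mem_union]
      tauto
    · rw [disjoint_left]
      intro q hq hq'
      simp only [hX1, hX2, mem_filter, mem_univ, true_and] at hq hq'
      exact hq'.2.2 hq.2.2
  have hYcard : ((univ : Finset (Finset V × V)).filter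
      (fun q => q.1 ∈ 𝒞 ∧ q.2 ∉ q.1)).card = Y1.card + Y2.card := by
    rw [← card_union_of_disjoint]
    · congr 1
      ext q
      simp only [hY1, hY2, mem_filter, mem_univ, true_and, mem_union]
      tauto
    · rw [disjoint_left]
      intro q hq hq'
      simp only [hY1, hY2, mem_filter, mem_univ, true_and] at hq hq'
      exact hq'.2.2 hq.2.2
  have h11 : X1.card = Y1.card := by
    apply card_bij (fun q _ => (q.1.erase q.2, q.2))
    · intro q hq
      simp only [hX1, hY1, mem_filter, mem_univ, true_and] at hq ⊢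
      exact ⟨hq.2.2, notMem_erase _ _, by rw [insert_erase hq.2.1]; exact hq.1⟩
    · intro q hq q' hq' h
      simp only [hX1, mem_filter, mem_univ, true_and] at hq hq'
      simp only [Prod.mk.injEq] at h
      apply Prod.ext _ h.2
      rw [← insert_erase hq.2.1, ← insert_erase hq'.2.1, h.1, h.2]
    · intro q hq
      simp only [hY1, mem_filter, mem_univ, true_and] at hq
      refine ⟨(insert q.2 q.1, q.2), ?_, ?_⟩
      · simp only [hX1, mem_filter, mem_univ, true_and]
        exact ⟨hq.2.2, mem_insert_self _ _, by rw [erase_insert hq.2.1]; exact hq.1⟩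
      · simp only
        rw [erase_insert hq.2.1]
  have h22 : X2.card ≤ Y2.card := by
    have hX2s : X2.card = ∑ F ∈ 𝒞, (locR 𝒞 F).card := by
      rw [card_eq_sum_card_fiberwise (f := Prod.fst) (t := 𝒞)
        (by
          intro q hq
          simp only [hX2, coe_filter, mem_univ, true_and, Set.mem_ofPred_eq] at hq
          exact hq.1)]
      apply sum_congr rfl
      intro F hF
      symm
      apply card_bij (fun u _ => (F, u))
      · intro u hu
        obtain ⟨h1, h2⟩ := mem_filter.1 hu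
        exact mem_filter.2 ⟨mem_filter.2 ⟨mem_univ _, hF, h1, h2⟩, rfl⟩
      · intro a _ c _ h
        exact (Prod.ext_iff.1 h).2
      · intro q hq
        simp only [hX2, mem_filter, mem_univ, true_and] at hq
        obtain ⟨⟨h1, h2, h3⟩, rfl⟩ := hq
        exact ⟨q.2, mem_filter.2 ⟨h2, h3⟩, rfl⟩
    have hY2s : Y2.card = ∑ F ∈ 𝒞, (locP 𝒞 F).card := by
      rw [card_eq_sum_card_fiberwise (f := fun q => cl 𝒞 (insert q.2 q.1)) (t := 𝒞)
        (by
          intro q _
          exact cl_mem _ _)]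
      apply sum_congr rfl
      intro F _
      congr 1
      ext q
      simp only [hY2, locP, mem_filter, mem_univ, true_and]
      tauto
    rw [hX2s, hY2s]
    exact sum_le_sum (fun F hF => local_ineq 𝒜 hone hempty F hF)
  have hsum : ∑ F ∈ 𝒞, F.card + ∑ F ∈ 𝒞, (Fintype.card V - F.card)
      = 𝒞.card * Fintype.card V := by
    rw [← sum_add_distrib, card_eq_sum_ones, sum_mul]
    apply sum_congr rfl
    intro F _
    have := card_le_univ F
    omega
  rw [hXcard] at hX
  rw [hYcard] at hY
  omega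

end Pool.Agent.Results.MP_acd7a5_co.AverageRare
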